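import Mathlib

set_option autoImplicit false

namespace Pool.Agent.Results.MP_2c5934_co.Small

/-- the `h`-fold sumset -/
def sumset {G : Type} [AddCommGroup G] (h : ℕ) (A : Finset G) : Set G :=
  {x | ∃ f : Fin h → G, (∀ i, f i ∈ A) ∧ ∑ i, f i = x}

/-- the `h`-fold signed sumset -/
def signedSumset {G : Type} [AddCommGroup G] (h : ℕ) (A : Finset G) : Set G :=
  {x | ∃ l : G → ℤ, ∑ a ∈ A, |l a| = h ∧ ∑ a ∈ A, l a • a = x}

abbrev G := Fin 2 → ZMod 5

theorem four : ∀ a b : G, a ≠ b →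
    ({a + a + a, a + a + b, a + b + b, b + b + b} : Finset G).card = 4 := by decide +kernel

theorem low1 (A : Finset G) (hA : A.card = 2) : 4 ≤ (sumset 3 A).ncard := by
  obtain ⟨a, b, hab, rfl⟩ := Finset.card_eq_two.mp hA
  rw [← four a b hab, ← Set.ncard_coe_finset]
  refine Set.ncard_le_ncard ?_ (Set.toFinite _)
  intro x hx
  simp only [Finset.coe_insert, Finset.coe_singleton, Set.mem_insert_iff,
    Set.mem_singleton_iff] at hx
  rcases hx with rfl | rfl | rfl | rfl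
  · exact ⟨![a, a, a], fun i => by fin_cases i <;> simp, by simp [Fin.sum_univ_three]⟩
  · exact ⟨![a, a, b], fun i => by fin_cases i <;> simp, by simp [Fin.sum_univ_three]⟩
  · exact ⟨![a, b, b], fun i => by fin_cases i <;> simp, by simp [Fin.sum_univ_three]⟩
  · exact ⟨![b, b, b], fun i => by fin_cases i <;> simp, by simp [Fin.sum_univ_three]⟩

theorem sub (A : Finset G) : sumset 3 A ⊆ signedSumset 3 A := by
  rintro _ ⟨f, hf, rfl⟩
  refine ⟨fun a => ∑ i, if f i = a then 1 else 0, ?_, ?_⟩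
  · have : ∀ a, |∑ i, if f i = a then (1 : ℤ) else 0| = ∑ i, if f i = a then (1 : ℤ) else 0 :=
      fun a => abs_of_nonneg (Finset.sum_nonneg fun i _ => by split_ifs <;> norm_num)
    simp only [this]
    rw [Finset.sum_comm]
    simp [hf]
  · simp only [Finset.sum_smul]
    rw [Finset.sum_comm]
    simp [hf]

def e : G := ![1, 0]

theorem up : (signedSumset 3 ({e, -e} : Finset G)).ncard ≤ 4 := by
  have hne : e ≠ -e := by decide
  have h4 : ({(3 : ℤ) • e, (1 : ℤ) • e, (-1 : ℤ) • e, (-3 : ℤ) • e} : Finset G).card = 4 := by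
    decide +kernel
  rw [← h4, ← Set.ncard_coe_finset]
  refine Set.ncard_le_ncard ?_ (Set.toFinite _)
  rintro _ ⟨l, hl, rfl⟩
  rw [Finset.sum_pair hne] at hl ⊢
  have h : l e - l (-e) = 3 ∨ l e - l (-e) = 1 ∨ l e - l (-e) = -1 ∨ l e - l (-e) = -3 := by
    rcases abs_cases (l e) with h1 | h1 <;> rcases abs_cases (l (-e)) with h2 | h2 <;> omega
  rw [smul_neg, ← sub_eq_add_neg, ← sub_smul]
  rcases h with h | h | h | h <;> rw [h] <;> simp

/-- Parameters with `m > (c + 1) p ^ k` for which the two minima coincide. -/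
theorem result : ∃ p r h m δ k c : ℕ, p.Prime ∧ Odd p ∧ 2 ≤ r ∧ 2 ≤ h ∧ h + 1 ≤ p ∧ 2 ≤ m ∧
    m ≤ p ^ r ∧ δ = (if (h : ℤ) ∣ (p : ℤ) - 1 then 0 else 1) ∧
    IsGreatest {k' : ℕ | ((p : ℤ) ^ k' + δ ≤ h * m - h + 1)} k ∧
    IsGreatest {c' : ℕ | ((h * c' + 1 : ℤ) * p ^ k + δ ≤ h * m - h + 1)} c ∧
    (c + 1) * p ^ k < m ∧
    ∃ n : ℕ,
      IsLeast {s | ∃ A : Finset (Fin r → ZMod p), A.card = m ∧ (sumset h A).ncard = s} n ∧
      IsLeast {s | ∃ A : Finset (Fin r → ZMod p), A.card = m ∧ (signedSumset h A).ncard = s} n := by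
  have hc : ({e, -e} : Finset G).card = 2 := by decide
  have hs : ∀ A : Finset G, (sumset 3 A).ncard ≤ (signedSumset 3 A).ncard :=
    fun A => Set.ncard_le_ncard (sub A) (Set.toFinite _)
  refine ⟨5, 2, 3, 2, 1, 0, 0, by norm_num, by decide, le_rfl, by norm_num, by norm_num, le_rfl,
    by norm_num, by norm_num, ⟨by norm_num, ?_⟩, ⟨by norm_num, ?_⟩, by norm_num, 4,
    ⟨⟨{e, -e}, hc, le_antisymm ((hs _).trans up) (low1 _ hc)⟩, ?_⟩,
    ⟨⟨{e, -e}, hc, le_antisymm up ((low1 _ hc).trans (hs _))⟩, ?_⟩⟩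
  · intro k hk
    simp only [Set.mem_ofPred_eq] at hk
    rcases k with _ | k
    · exact le_rfl
    · have : (1 : ℤ) ≤ 5 ^ k := one_le_pow₀ (by norm_num)
      rw [pow_succ] at hk
      push_cast at hk
      omega
  · intro c hc
    simp only [Set.mem_ofPred_eq] at hc
    push_cast at hc
    omega
  · rintro _ ⟨A, hA, rfl⟩
    exact low1 A hA
  · rintro _ ⟨A, hA, rfl⟩
    exact (low1 A hA).trans (hs A)

end Pool.Agent.Results.MP_2c5934_co.Small
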